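import Pool.Agent.Y6.F.Stm

/-! Project EF, job EF-GAP: the detuning. -/

set_option autoImplicit false

namespace Pool.Agent.Y287.EF.GAP

open Pool.Agent.Y6.F
open Pool.Agent.Y6.M (Md br nsq len Z3)

lemma pow_gap (x y : ℕ) (h : x < y) : (y : ℝ) ^ 3 ≤ (y : ℝ) ^ 4 - (x : ℝ) ^ 4 := by
  have h1 : (x : ℝ) + 1 ≤ y := by exact_mod_cast h
  have h0 : (0 : ℝ) ≤ x := Nat.cast_nonneg x
  have h2 : (x : ℝ) ^ 3 ≤ (y : ℝ) ^ 3 := pow_le_pow_left₀ h0 (by linarith) 3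
  have h3 : (x : ℝ) * (x : ℝ) ^ 3 ≤ ((y : ℝ) - 1) * (y : ℝ) ^ 3 :=
    mul_le_mul (by linarith) h2 (by positivity) (by linarith)
  have e1 : (x : ℝ) ^ 4 = (x : ℝ) * (x : ℝ) ^ 3 := by ring
  have e2 : ((y : ℝ) - 1) * (y : ℝ) ^ 3 = (y : ℝ) ^ 4 - (y : ℝ) ^ 3 := by ring
  linarith

lemma abs_one {s : ℝ} (hs : s ^ 2 = 1) : |s| = 1 := by
  have h : |s| ^ 2 = 1 := by rw [sq_abs, hs]
  have h0 := abs_nonneg s
  nlinarith

lemma sub_gap (x y : ℕ) (h : x < y) {s t : ℝ} (hs : s ^ 2 = 1) (ht : t ^ 2 = 1) :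
    (y : ℝ) ^ 3 ≤ |(y : ℝ) ^ 4 * t - (x : ℝ) ^ 4 * s| := by
  have h1 : |(y : ℝ) ^ 4 * t| = (y : ℝ) ^ 4 := by
    rw [abs_mul, abs_one ht, mul_one, abs_of_nonneg (by positivity)]
  have h2 : |(x : ℝ) ^ 4 * s| = (x : ℝ) ^ 4 := by
    rw [abs_mul, abs_one hs, mul_one, abs_of_nonneg (by positivity)]
  have h3 := abs_sub_abs_le_abs_sub ((y : ℝ) ^ 4 * t) ((x : ℝ) ^ 4 * s)
  rw [h1, h2] at h3
  exact (pow_gap x y h).trans h3

lemma ωF_eq (hLV : S_LV) (i : Md) (hi : σM i ≠ 0) :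
    ωF i = 10 ^ 60 * ((cd i : ℝ) ^ 4 * σM i) := by
  obtain ⟨-, -, -, h4, -⟩ := hLV
  have h : ωF i = SF (lvM i) * σM i := rfl
  rw [h, (h4 i hi).1]
  unfold SF
  ring

lemma ωF_zero (i : Md) (hi : σM i = 0) : ωF i = 0 := by
  have h : ωF i = SF (lvM i) * σM i := rfl
  rw [h, hi, mul_zero]

lemma part1 (hLV : S_LV) (hC : S_CODE) (i : Md) (hi : σM i ≠ 0) :
    10 ^ 60 * ln i ^ 16 ≤ |ωF i| ∧ |ωF i| ≤ 10 ^ 60 * 108 ^ 4 * ln i ^ 16 := by
  have hw := ωF_eq hLV i hi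
  obtain ⟨-, -, -, h4, -⟩ := hLV
  obtain ⟨c1, -, -, -, c5, -⟩ := hC
  have hL := (c5 i).1
  have hL0 : 0 ≤ ln i := by linarith
  have hw2 : |ωF i| = 10 ^ 60 * (cd i : ℝ) ^ 4 := by
    rw [hw, abs_mul, abs_mul, abs_one (h4 i hi).2, mul_one, abs_of_nonneg (by positivity),
      abs_of_nonneg (by positivity)]
  rw [hw2]
  constructor
  · have h1 : (ln i ^ 4) ^ 4 ≤ (cd i : ℝ) ^ 4 := pow_le_pow_left₀ (by positivity) (c1 i).1 4
    have e : ln i ^ 16 = (ln i ^ 4) ^ 4 := by ring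
    rw [e]
    exact mul_le_mul_of_nonneg_left h1 (by positivity)
  · have h1 : (cd i : ℝ) ^ 4 ≤ (108 * ln i ^ 4) ^ 4 :=
      pow_le_pow_left₀ (by positivity) (c1 i).2 4
    have e : (10 : ℝ) ^ 60 * 108 ^ 4 * ln i ^ 16 = 10 ^ 60 * (108 * ln i ^ 4) ^ 4 := by ring
    rw [e]
    exact mul_le_mul_of_nonneg_left h1 (by positivity)

lemma key (hLV : S_LV) (hC : S_CODE) (a i : Md) (ha : σM a ≠ 0) (hi : σM i ≠ 0) (hne : a ≠ i) :
    10 ^ 60 * max (ln a) (ln i) ^ 12 ≤ |ωF a - ωF i| := by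
  rw [ωF_eq hLV a ha, ωF_eq hLV i hi, ← mul_sub, abs_mul,
    abs_of_nonneg (show (0 : ℝ) ≤ 10 ^ 60 by positivity)]
  refine mul_le_mul_of_nonneg_left ?_ (by positivity)
  obtain ⟨-, -, -, h4, h5, -⟩ := hLV
  obtain ⟨c1, c2, -, -, c5, -⟩ := hC
  have hLa := (c5 a).1
  have hLi := (c5 i).1
  have hm0 : 0 ≤ max (ln a) (ln i) := le_max_of_le_left (by linarith)
  have h1 : max (ln a) (ln i) ^ 4 ≤ max (cd a : ℝ) (cd i : ℝ) := by
    rcases le_total (ln a) (ln i) with h | h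
    · rw [max_eq_right h]
      exact (c1 i).1.trans (le_max_right _ _)
    · rw [max_eq_left h]
      exact (c1 a).1.trans (le_max_left _ _)
  have h2 : max (ln a) (ln i) ^ 12 ≤ max (cd a : ℝ) (cd i : ℝ) ^ 3 := by
    have e : max (ln a) (ln i) ^ 12 = (max (ln a) (ln i) ^ 4) ^ 3 := by ring
    rw [e]
    exact pow_le_pow_left₀ (by positivity) h1 3
  refine h2.trans ?_
  rcases lt_trichotomy (cd a) (cd i) with h | h | h
  · have hh : (cd a : ℝ) ≤ cd i := by exact_mod_cast h.le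
    rw [max_eq_right hh, abs_sub_comm]
    exact sub_gap _ _ h (h4 a ha).2 (h4 i hi).2
  · rcases c2 a i h with h6 | h6
    · exact absurd h6.symm hne
    · have hs : σM i = -σM a := by rw [h6]; exact (h5 a).2.2
      rw [hs, ← h, max_self]
      have e : (cd a : ℝ) ^ 4 * σM a - (cd a : ℝ) ^ 4 * -σM a = 2 * (cd a : ℝ) ^ 4 * σM a := by
        ring
      rw [e, abs_mul, abs_one (h4 a ha).2, mul_one, abs_of_nonneg (by positivity)]
      have hA : (1 : ℝ) ≤ cd a := (one_le_pow₀ hLa).trans (c1 a).1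
      have h7 : (cd a : ℝ) ^ 3 ≤ (cd a : ℝ) ^ 4 := pow_le_pow_right₀ hA (by norm_num)
      have h8 : (0 : ℝ) ≤ (cd a : ℝ) ^ 4 := by positivity
      linarith
  · have hh : (cd i : ℝ) ≤ cd a := by exact_mod_cast h.le
    rw [max_eq_left hh]
    exact sub_gap _ _ h (h4 i hi).2 (h4 a ha).2

/-- two other modes, `a` with the smaller length -/
lemma two (hLV : S_LV) (hC : S_CODE) (a b i : Md) (ha : σM a ≠ 0) (hb : σM b ≠ 0)
    (hi : σM i ≠ 0) (hne : b ≠ i) (h : 256 * ln a ^ 4 ≤ max (ln b) (ln i) ^ 3) :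
    10 ^ 60 / 2 * max (ln b) (ln i) ^ 12 ≤ |ωF a + ωF b - ωF i| := by
  have h1 := key hLV hC b i hb hi hne
  have h2 := (part1 hLV hC a ha).2
  obtain ⟨c1, c2, -, -, c5, -⟩ := hC
  have hLa := (c5 a).1
  have hLi := (c5 i).1
  set m := max (ln b) (ln i) with hm
  have hm0 : 0 ≤ m := hm ▸ le_max_of_le_right (by linarith)
  have h3 : (256 * ln a ^ 4) ^ 4 ≤ (m ^ 3) ^ 4 := pow_le_pow_left₀ (by positivity) h 4
  have e1 : (256 * ln a ^ 4) ^ 4 = 256 ^ 4 * ln a ^ 16 := by ring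
  have e2 : (m ^ 3) ^ 4 = m ^ 12 := by ring
  rw [e1, e2] at h3
  have h4 : 108 ^ 4 * ln a ^ 16 ≤ m ^ 12 / 2 := by
    have h5 : (0 : ℝ) ≤ ln a ^ 16 := by positivity
    have h6 : (2 : ℝ) * 108 ^ 4 ≤ 256 ^ 4 := by norm_num
    have h7 := mul_le_mul_of_nonneg_right h6 h5
    linarith
  have h5 : |ωF b - ωF i| ≤ |ωF a + ωF b - ωF i| + |ωF a| := by
    have e : ωF b - ωF i = (ωF a + ωF b - ωF i) - ωF a := by ring
    rw [e]
    exact abs_sub _ _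
  have h6 : (10 : ℝ) ^ 60 * 108 ^ 4 * ln a ^ 16 ≤ 10 ^ 60 * (m ^ 12 / 2) := by
    rw [mul_assoc]
    exact mul_le_mul_of_nonneg_left h4 (by positivity)
  have e3 : (10 : ℝ) ^ 60 / 2 * m ^ 12 = 10 ^ 60 * m ^ 12 - 10 ^ 60 * (m ^ 12 / 2) := by ring
  rw [e3]
  linarith

theorem t_GAP : S_GAP := by
  intro hLV hC
  refine ⟨part1 hLV hC, ?_⟩
  intro i p hi hp hD
  have hn1 : p.1 ≠ i := by
    intro h
    apply p.2.1.2
    have h1 := hp
    rw [h] at h1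
    exact left_eq_add.1 h1.symm
  have hn2 : p.2 ≠ i := by
    intro h
    apply p.1.1.2
    have h1 := hp
    rw [h] at h1
    exact right_eq_add.1 h1.symm
  unfold D0 at hD ⊢
  by_cases h1 : σM p.1 = 0
  · by_cases h2 : σM p.2 = 0
    · rw [if_pos h1, if_pos h2] at hD ⊢
      by_cases h3 : ln p.1 ≤ 4 * ln i ∧ ln p.2 ≤ 4 * ln i
      · rw [if_pos h3, ωF_zero _ h1, ωF_zero _ h2, add_zero, zero_sub, abs_neg]
        exact (part1 hLV hC i hi).1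
      · rw [if_neg h3] at hD
        exact absurd hD (lt_irrefl _)
    · rw [if_pos h1, if_neg h2, ωF_zero _ h1, zero_add]
      exact key hLV hC p.2 i h2 hi hn2
  · by_cases h2 : σM p.2 = 0
    · rw [if_neg h1, if_pos h2, ωF_zero _ h2, add_zero]
      exact key hLV hC p.1 i h1 hi hn1
    · rw [if_neg h1, if_neg h2] at hD ⊢
      by_cases h3 : 256 * min (ln p.1) (ln p.2) ^ 4 ≤ mx i p ^ 3
      · rw [if_pos h3]
        unfold mx at h3 ⊢
        rcases le_total (ln p.1) (ln p.2) with h4 | h4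
        · rw [max_eq_right h4] at h3 ⊢
          rw [min_eq_left h4] at h3
          exact two hLV hC p.1 p.2 i h1 h2 hi hn2 h3
        · rw [max_eq_left h4] at h3 ⊢
          rw [min_eq_right h4] at h3
          rw [add_comm (ωF p.1)]
          exact two hLV hC p.2 p.1 i h2 h1 hi hn1 h3
      · rw [if_neg h3] at hD
        exact absurd hD (lt_irrefl _)

end Pool.Agent.Y287.EF.GAP
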