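import Pool.Agent.Y287.EF.VEC

/-! Project EF, job EF-LAT: lattice sums. -/

set_option autoImplicit false

namespace Pool.Agent.Y287.EF.LAT

open Pool.Agent.Y6.F
open Pool.Agent.Y6.M (Z3 nsq len Md br)

/-! ### First part -/

lemma nsq3 (k : Z3) : nsq k = k 0 ^ 2 + k 1 ^ 2 + k 2 ^ 2 := by
  unfold nsq
  rw [Fin.sum_univ_three]

lemma rk_eq (k : Z3) : (rk k = (k 0).natAbs ∨ rk k = (k 1).natAbs ∨ rk k = (k 2).natAbs) ∧
    (k 0).natAbs ≤ rk k ∧ (k 1).natAbs ≤ rk k ∧ (k 2).natAbs ≤ rk k := by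
  unfold rk
  omega

lemma rk_pos (k : Z3) (hk : k ≠ 0) : 1 ≤ rk k := by
  by_contra h
  apply hk
  have h1 := (rk_eq k).2
  have h2 : k 0 = 0 := by omega
  have h3 : k 1 = 0 := by omega
  have h4 : k 2 = 0 := by omega
  funext j
  fin_cases j
  · exact h2
  · exact h3
  · exact h4

lemma rk_sq (k : Z3) : ((rk k : ℕ) : ℤ) ^ 2 ≤ nsq k := by
  rw [nsq3]
  have h0 := sq_nonneg (k 0)
  have h1 := sq_nonneg (k 1)
  have h2 := sq_nonneg (k 2)
  rcases (rk_eq k).1 with h | h | h <;> rw [h, Int.natAbs_sq] <;> linarith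

lemma ln_sq (a : Md) : ln a ^ 2 = (nsq a.1.1 : ℝ) := by
  have h0 : ln a = √(nsq a.1.1 : ℝ) := rfl
  have h1 : (0 : ℝ) ≤ (nsq a.1.1 : ℝ) := by
    have h2 : 0 ≤ nsq a.1.1 := (sq_nonneg _).trans (rk_sq a.1.1)
    exact_mod_cast h2
  rw [h0, Real.sq_sqrt h1]

lemma f_le (a : Md) : (ln a ^ 4)⁻¹ ≤ ((rk a.1.1 : ℝ) ^ 4)⁻¹ := by
  have h1 := rk_pos a.1.1 a.1.2
  have h2 : (1 : ℝ) ≤ rk a.1.1 := by exact_mod_cast h1
  have h3 : (rk a.1.1 : ℝ) ^ 2 ≤ ln a ^ 2 := by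
    rw [ln_sq]
    exact_mod_cast rk_sq a.1.1
  have h4 : ((rk a.1.1 : ℝ) ^ 2) ^ 2 ≤ (ln a ^ 2) ^ 2 := pow_le_pow_left₀ (by positivity) h3 2
  refine inv_anti₀ (by positivity) ?_
  calc (rk a.1.1 : ℝ) ^ 4 = ((rk a.1.1 : ℝ) ^ 2) ^ 2 := by ring
    _ ≤ (ln a ^ 2) ^ 2 := h4
    _ = ln a ^ 4 := by ring

/-- the vectors with a coordinate `± R` -/
def vec (R : ℕ) (t : Fin 3 × Bool × ℤ × ℤ) : Z3 :=
  if t.1 = 0 then ![if t.2.1 then (R : ℤ) else -R, t.2.2.1, t.2.2.2]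
  else if t.1 = 1 then ![t.2.2.1, if t.2.1 then (R : ℤ) else -R, t.2.2.2]
  else ![t.2.2.1, t.2.2.2, if t.2.1 then (R : ℤ) else -R]

noncomputable def TT (R : ℕ) : Finset (Fin 3 × Bool × ℤ × ℤ) :=
  (Finset.univ : Finset (Fin 3)) ×ˢ (Finset.univ : Finset Bool) ×ˢ
    Finset.Icc (-(R : ℤ)) R ×ˢ Finset.Icc (-(R : ℤ)) R

lemma card_TT (R : ℕ) : (TT R).card = 6 * (2 * R + 1) ^ 2 := by
  unfold TT
  rw [Finset.card_product, Finset.card_product, Finset.card_product, Int.card_Icc,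
    Finset.card_univ, Finset.card_univ, Fintype.card_fin, Fintype.card_bool]
  have h : ((R : ℤ) + 1 - -(R : ℤ)).toNat = 2 * R + 1 := by omega
  rw [h]
  ring

lemma sgn_eq (R : ℕ) (x : ℤ) (h : x.natAbs = R) :
    (if (decide (0 ≤ x) : Bool) then (R : ℤ) else -R) = x := by
  by_cases hx : 0 ≤ x
  · rw [if_pos (by simpa using hx)]
    omega
  · rw [if_neg (by simpa using hx)]
    omega

lemma mem_vec (k : Z3) (R : ℕ) (h : rk k = R) : ∃ t ∈ TT R, vec R t = k := by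
  obtain ⟨h1, h2, h3, h4⟩ := rk_eq k
  rw [h] at h1 h2 h3 h4
  have m : ∀ (j : Fin 3) (b : Bool) (u v : ℤ), u.natAbs ≤ R → v.natAbs ≤ R →
      (j, b, u, v) ∈ TT R := by
    intro j b u v hu hv
    unfold TT
    simp only [Finset.mem_product, Finset.mem_univ, Finset.mem_Icc, true_and]
    omega
  rcases h1 with h1 | h1 | h1
  · refine ⟨(0, decide (0 ≤ k 0), k 1, k 2), m _ _ _ _ h3 h4, ?_⟩
    unfold vec
    rw [if_pos rfl]
    show ![if (decide (0 ≤ k 0) : Bool) then (R : ℤ) else -R, k 1, k 2] = k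
    rw [sgn_eq R (k 0) h1.symm]
    funext j
    fin_cases j <;> rfl
  · refine ⟨(1, decide (0 ≤ k 1), k 0, k 2), m _ _ _ _ h2 h4, ?_⟩
    unfold vec
    rw [if_neg (by simp), if_pos rfl]
    show ![k 0, if (decide (0 ≤ k 1) : Bool) then (R : ℤ) else -R, k 2] = k
    rw [sgn_eq R (k 1) h1.symm]
    funext j
    fin_cases j <;> rfl
  · refine ⟨(2, decide (0 ≤ k 2), k 0, k 1), m _ _ _ _ h2 h3, ?_⟩
    unfold vec
    rw [if_neg (by simp), if_neg (by simp)]
    show ![k 0, k 1, if (decide (0 ≤ k 2) : Bool) then (R : ℤ) else -R] = k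
    rw [sgn_eq R (k 2) h1.symm]
    funext j
    fin_cases j <;> rfl

lemma shell (s : Finset Md) (R : ℕ) :
    (s.filter (fun a => rk a.1.1 = R)).card ≤ 12 * (2 * R + 1) ^ 2 := by
  classical
  have h1 : (s.filter (fun a => rk a.1.1 = R)).card ≤
      (((TT R).image (vec R)) ×ˢ (Finset.univ : Finset Bool)).card := by
    refine Finset.card_le_card_of_injOn (fun a => (a.1.1, a.2)) ?_ ?_
    · intro a ha
      have h2 := (Finset.mem_filter.1 (Finset.mem_coe.1 ha)).2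
      obtain ⟨t, ht, hv⟩ := mem_vec a.1.1 R h2
      exact Finset.mem_coe.2 (Finset.mem_product.2
        ⟨Finset.mem_image.2 ⟨t, ht, hv⟩, Finset.mem_univ _⟩)
    · intro a _ b _ hab
      have h3 := congrArg Prod.fst hab
      have h4 := congrArg Prod.snd hab
      exact Prod.ext (Subtype.ext h3) h4
  refine h1.trans ?_
  rw [Finset.card_product, Finset.card_univ, Fintype.card_bool]
  have h2 := Finset.card_image_le (s := TT R) (f := vec R)
  rw [card_TT] at h2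
  linarith

lemma inv_sq_aux (n : ℕ) :
    ∑ R ∈ Finset.range (n + 2), ((R : ℝ) ^ 2)⁻¹ ≤ 2 - 1 / ((n : ℝ) + 1) := by
  induction n with
  | zero =>
    rw [Finset.sum_range_succ, Finset.sum_range_succ, Finset.sum_range_zero]
    norm_num
  | succ n ih =>
    rw [Finset.sum_range_succ]
    have h1 : (((n + 2 : ℕ) : ℝ) ^ 2)⁻¹ ≤ 1 / ((n : ℝ) + 1) - 1 / ((n : ℝ) + 2) := by
      have e : 1 / ((n : ℝ) + 1) - 1 / ((n : ℝ) + 2) = (((n : ℝ) + 1) * ((n : ℝ) + 2))⁻¹ := by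
        field_simp
        ring
      rw [e]
      refine inv_anti₀ (by positivity) ?_
      push_cast
      nlinarith [(Nat.cast_nonneg n : (0 : ℝ) ≤ n)]
    push_cast at h1 ⊢
    have e2 : (n : ℝ) + 1 + 1 = (n : ℝ) + 2 := by ring
    rw [e2]
    linarith

lemma inv_sq_sum (n : ℕ) : ∑ R ∈ Finset.range n, ((R : ℝ) ^ 2)⁻¹ ≤ 2 := by
  have h1 : ∑ R ∈ Finset.range n, ((R : ℝ) ^ 2)⁻¹ ≤
      ∑ R ∈ Finset.range (n + 2), ((R : ℝ) ^ 2)⁻¹ :=
    Finset.sum_le_sum_of_subset_of_nonneg (Finset.range_mono (by omega))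
      (fun _ _ _ => by positivity)
  have h2 := inv_sq_aux n
  have h3 : (0 : ℝ) ≤ 1 / ((n : ℝ) + 1) := by positivity
  linarith

lemma sum1 (s : Finset Md) : ∑ a ∈ s, (ln a ^ 4)⁻¹ ≤ 1000 := by
  classical
  have hmaps : ∀ a ∈ s, rk a.1.1 ∈ Finset.range (s.sup (fun a => rk a.1.1) + 1) := fun a ha =>
    Finset.mem_range.2 (Nat.lt_succ_of_le (Finset.le_sup (f := fun a : Md => rk a.1.1) ha))
  rw [← Finset.sum_fiberwise_of_maps_to hmaps]
  have h1 : ∀ R ∈ Finset.range (s.sup (fun a => rk a.1.1) + 1),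
      ∑ a ∈ s.filter (fun a => rk a.1.1 = R), (ln a ^ 4)⁻¹ ≤ 108 * ((R : ℝ) ^ 2)⁻¹ := by
    intro R _
    rcases Nat.eq_zero_or_pos R with h0 | h0
    · have he : s.filter (fun a => rk a.1.1 = R) = ∅ := by
        refine Finset.filter_eq_empty_iff.2 ?_
        intro a _ ha
        have := rk_pos a.1.1 a.1.2
        omega
      rw [he, Finset.sum_empty]
      positivity
    · have h2 : (1 : ℝ) ≤ R := by exact_mod_cast h0
      have h3 : ∑ a ∈ s.filter (fun a => rk a.1.1 = R), (ln a ^ 4)⁻¹ ≤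
          (s.filter (fun a => rk a.1.1 = R)).card • ((R : ℝ) ^ 4)⁻¹ := by
        refine Finset.sum_le_card_nsmul _ _ _ ?_
        intro a ha
        have h4 := f_le a
        rwa [(Finset.mem_filter.1 ha).2] at h4
      refine h3.trans ?_
      rw [nsmul_eq_mul]
      have h5 : ((s.filter (fun a => rk a.1.1 = R)).card : ℝ) ≤ 12 * (2 * R + 1) ^ 2 := by
        exact_mod_cast shell s R
      have h6 : (12 : ℝ) * (2 * R + 1) ^ 2 ≤ 108 * (R : ℝ) ^ 2 := by nlinarith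
      calc ((s.filter (fun a => rk a.1.1 = R)).card : ℝ) * ((R : ℝ) ^ 4)⁻¹
          ≤ (108 * (R : ℝ) ^ 2) * ((R : ℝ) ^ 4)⁻¹ :=
            mul_le_mul_of_nonneg_right (h5.trans h6) (by positivity)
        _ = 108 * ((R : ℝ) ^ 2)⁻¹ := by
            field_simp
  refine (Finset.sum_le_sum h1).trans ?_
  rw [← Finset.mul_sum]
  have h2 := inv_sq_sum (s.sup (fun a => rk a.1.1) + 1)
  linarith

/-! ### Second part -/

lemma al_big (n : ℕ) : 8 * 2 ^ n ≤ al n := by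
  induction n with
  | zero =>
    show 8 * 2 ^ 0 ≤ 10 ^ 100
    norm_num
  | succ n ih =>
    have h1 : al (n + 1) = al n ^ (2 * n + 60) := rfl
    have h2 : 2 ≤ al n := by
      have : 1 ≤ 2 ^ n := Nat.one_le_two_pow
      omega
    have h3 : al n ^ 2 ≤ al n ^ (2 * n + 60) := Nat.pow_le_pow_right (by omega) (by omega)
    rw [h1]
    refine le_trans ?_ h3
    calc 8 * 2 ^ (n + 1) = 8 * 2 ^ n * 2 := by ring
      _ ≤ al n * al n := Nat.mul_le_mul ih h2
      _ = al n ^ 2 := by ring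

lemma ln_Xm (n : ℕ) : ln (Xm n) = αM n := VEC.len_kx n

lemma ln_Ym (n : ℕ) : αM (n + 1) ≤ ln (Ym n) := by
  have h : ln (Ym n) = ρM n := VEC.len_ky n
  rw [h]
  unfold ρM
  refine Real.le_sqrt_of_sq_le ?_
  have := sq_nonneg (αM n)
  linarith

lemma ln_br (a : Md) : ln (br a) = ln a := by
  have h : nsq (br a).1.1 = nsq a.1.1 := by
    have e : ∀ j, (br a).1.1 j = -(a.1.1 j) := fun _ => rfl
    rw [nsq3, nsq3, e, e, e]
    ring
  have h0 : ln a = √(nsq a.1.1 : ℝ) := rfl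
  have h1 : ln (br a) = √(nsq (br a).1.1 : ℝ) := rfl
  rw [h0, h1, h]

lemma main_ln (hLV : S_LV) (a : Md) (ha : σM a = 0) : αM (lvM a) ≤ ln a := by
  obtain ⟨h1, -, h3, -⟩ := hLV
  obtain ⟨n, h | h | h | h⟩ := h3 a ha
  · rw [h, (h1 n).1, ln_Xm]
  · rw [h, (h1 n).2.1, ln_br, ln_Xm]
  · rw [h, (h1 n).2.2.1]
    exact ln_Ym n
  · rw [h, (h1 n).2.2.2, ln_br]
    exact ln_Ym n

lemma main_card (hLV : S_LV) (s : Finset Md) (n : ℕ) :
    (s.filter (fun a => σM a = 0 ∧ lvM a = n)).card ≤ 4 := by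
  classical
  obtain ⟨h1, -, h3, -⟩ := hLV
  have hsub : s.filter (fun a => σM a = 0 ∧ lvM a = n) ⊆
      {Xm n, br (Xm n), Ym (n - 1), br (Ym (n - 1))} := by
    intro a ha
    obtain ⟨ha1, ha2⟩ := (Finset.mem_filter.1 ha).2
    simp only [Finset.mem_insert, Finset.mem_singleton]
    obtain ⟨m, h | h | h | h⟩ := h3 a ha1
    · have := (h1 m).1
      rw [← h, ha2] at this
      subst this
      exact Or.inl h
    · have := (h1 m).2.1
      rw [← h, ha2] at this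
      subst this
      exact Or.inr (Or.inl h)
    · have := (h1 m).2.2.1
      rw [← h, ha2] at this
      subst this
      exact Or.inr (Or.inr (Or.inl h))
    · have := (h1 m).2.2.2
      rw [← h, ha2] at this
      subst this
      exact Or.inr (Or.inr (Or.inr h))
  exact (Finset.card_le_card hsub).trans Finset.card_le_four

lemma geo (n : ℕ) : ∑ m ∈ Finset.range n, ((2 : ℝ) ^ m)⁻¹ ≤ 2 := by
  have h : ∀ n : ℕ, ∑ m ∈ Finset.range n, ((2 : ℝ) ^ m)⁻¹ = 2 - 2 * ((2 : ℝ) ^ n)⁻¹ := by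
    intro n
    induction n with
    | zero => simp
    | succ n ih =>
      rw [Finset.sum_range_succ, ih, pow_succ]
      field_simp
      ring
  rw [h]
  have : (0 : ℝ) ≤ ((2 : ℝ) ^ n)⁻¹ := by positivity
  linarith

lemma sum2 (hLV : S_LV) (s : Finset Md) :
    ∑ a ∈ s, (open Classical in if σM a = 0 then (ln a)⁻¹ else 0) ≤ 1 := by
  classical
  have hmaps : ∀ a ∈ s, lvM a ∈ Finset.range (s.sup lvM + 1) := fun a ha =>
    Finset.mem_range.2 (Nat.lt_succ_of_le (Finset.le_sup (f := lvM) ha))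
  rw [← Finset.sum_fiberwise_of_maps_to hmaps]
  have h1 : ∀ n ∈ Finset.range (s.sup lvM + 1),
      ∑ a ∈ s.filter (fun a => lvM a = n), (if σM a = 0 then (ln a)⁻¹ else 0) ≤
        (1 / 2) * ((2 : ℝ) ^ n)⁻¹ := by
    intro n _
    rw [← Finset.sum_filter, Finset.filter_filter]
    have h3 : ∑ a ∈ s.filter (fun a => lvM a = n ∧ σM a = 0), (ln a)⁻¹ ≤
        (s.filter (fun a => lvM a = n ∧ σM a = 0)).card • (1 / 8 * ((2 : ℝ) ^ n)⁻¹) := by
      refine Finset.sum_le_card_nsmul _ _ _ ?_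
      intro a ha
      obtain ⟨ha1, ha2⟩ := (Finset.mem_filter.1 ha).2
      have h4 := main_ln hLV a ha2
      rw [ha1] at h4
      have h5 : (8 : ℝ) * 2 ^ n ≤ αM n := by
        unfold αM
        exact_mod_cast al_big n
      have e : 1 / 8 * ((2 : ℝ) ^ n)⁻¹ = (8 * 2 ^ n)⁻¹ := by
        rw [mul_inv, one_div]
      rw [e]
      exact inv_anti₀ (by positivity) (h5.trans h4)
    refine h3.trans ?_
    rw [nsmul_eq_mul]
    have h6 : ((s.filter (fun a => lvM a = n ∧ σM a = 0)).card : ℝ) ≤ 4 := by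
      have h7 := main_card hLV s n
      have h8 : s.filter (fun a => lvM a = n ∧ σM a = 0) =
          s.filter (fun a => σM a = 0 ∧ lvM a = n) :=
        Finset.filter_congr (fun a _ => and_comm)
      rw [h8]
      exact_mod_cast h7
    have h9 : (0 : ℝ) ≤ 1 / 8 * ((2 : ℝ) ^ n)⁻¹ := by positivity
    have h10 := mul_le_mul_of_nonneg_right h6 h9
    linarith
  refine (Finset.sum_le_sum h1).trans ?_
  rw [← Finset.mul_sum]
  have h2 := geo (s.sup lvM + 1)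
  linarith

theorem t_LAT : S_LAT := by
  refine ⟨?_, ?_⟩
  · have hs : Summable (fun a : Md => (ln a ^ 4)⁻¹) :=
      summable_of_sum_le (fun a => by positivity) sum1
    exact ⟨hs, hs.tsum_le_of_sum_le sum1⟩
  · intro hLV
    have h0 : ∀ a : Md, 0 ≤ (if σM a = 0 then (ln a)⁻¹ else 0) := by
      intro a
      split_ifs
      · exact inv_nonneg.2 (VEC.ln_nonneg a)
      · exact le_rfl
    have hb : ∀ s : Finset Md, ∑ a ∈ s, (if σM a = 0 then (ln a)⁻¹ else 0) ≤ 1 := by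
      intro s
      refine le_trans (le_of_eq ?_) (sum2 hLV s)
      refine Finset.sum_congr rfl fun a _ => ?_
      split_ifs <;> rfl
    have hs : Summable (fun a : Md => if σM a = 0 then (ln a)⁻¹ else 0) :=
      summable_of_sum_le h0 hb
    exact ⟨hs, hs.tsum_le_of_sum_le hb⟩

end Pool.Agent.Y287.EF.LAT
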