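import Pool.Agent.Y6.F.Stm

set_option autoImplicit false

/-! Project EF, job EF-VEC: vector identities. The modulus of the coefficients of the chain is a
port of Pool/Agent/Y419/EM/Vec2. -/

open Set Filter Topology
open scoped ComplexConjugate

namespace Pool.Agent.Y287.EF.VEC

open Pool.Agent.Y6.F
open Pool.Agent.Y6.M (Z3 C3 dt cr cj kc nsq len Md hs br Frame cK)

theorem sq_half {x y : ℂ} (hy : y = Complex.I * x) (h : x * conj x + y * conj y = 1) :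
    ‖x‖ = 1 / √2 := by
  have h1 : ‖x‖ ^ 2 + ‖y‖ ^ 2 = 1 := by
    rw [Complex.mul_conj, Complex.mul_conj, Complex.normSq_eq_norm_sq,
      Complex.normSq_eq_norm_sq] at h
    exact_mod_cast h
  have h2 : ‖y‖ = ‖x‖ := by rw [hy, norm_mul, Complex.norm_I, one_mul]
  rw [h2] at h1
  have h3 : (√2 * ‖x‖) ^ 2 = 1 := by
    rw [mul_pow, Real.sq_sqrt (by norm_num)]
    linarith
  have h4 : √2 * ‖x‖ = 1 := by
    have h5 : 0 ≤ √2 * ‖x‖ := by positivity
    nlinarith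
  rw [eq_div_iff (by positivity)]
  linarith

/-- the three vectors, in cyclic coordinates -/
theorem core {α β ρ : ℝ} (hα : 0 < α) (hβ : 0 < β) (hρ : 0 < ρ) (hρ2 : ρ ^ 2 = α ^ 2 + β ^ 2)
    {H0 H1 H2 K0 K1 K2 Q0 Q1 Q2 : ℂ} (a0 : (α : ℂ) * H0 = 0)
    (a2 : Complex.I * ((α : ℂ) * H1) = α * H2)
    (ua : H0 * conj H0 + H1 * conj H1 + H2 * conj H2 = 1)
    (b1 : (β : ℂ) * K1 = 0) (b0 : Complex.I * ((β : ℂ) * K2) = β * K0)
    (ub : K0 * conj K0 + K1 * conj K1 + K2 * conj K2 = 1)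
    (q0 : Complex.I * ((β : ℂ) * Q2) = -(ρ : ℂ) * Q0)
    (q1 : Complex.I * (-((α : ℂ) * Q2)) = -(ρ : ℂ) * Q1)
    (uq : Q0 * conj Q0 + Q1 * conj Q1 + Q2 * conj Q2 = 1) :
    ‖conj Q0 * (H1 * K2 - H2 * K1) + conj Q1 * (H2 * K0 - H0 * K2) +
      conj Q2 * (H0 * K1 - H1 * K0)‖ = 1 / (2 * √2) * ((α + β) / ρ - 1) := by
  have hαC : (α : ℂ) ≠ 0 := by exact_mod_cast hα.ne'
  have hβC : (β : ℂ) ≠ 0 := by exact_mod_cast hβ.ne'
  have hρC : (ρ : ℂ) ≠ 0 := by exact_mod_cast hρ.ne'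
  have eH0 : H0 = 0 := (mul_eq_zero.1 a0).resolve_left hαC
  have eK1 : K1 = 0 := (mul_eq_zero.1 b1).resolve_left hβC
  have eH2 : H2 = Complex.I * H1 := by
    apply mul_left_cancel₀ hαC
    rw [← a2]
    ring
  have eK0 : K0 = Complex.I * K2 := by
    apply mul_left_cancel₀ hβC
    rw [← b0]
    ring
  have eQ0 : Q0 = -(Complex.I * ((β / ρ : ℝ) : ℂ) * Q2) := by
    apply mul_left_cancel₀ hρC
    push_cast
    field_simp
    linear_combination q0
  have eQ1 : Q1 = Complex.I * ((α / ρ : ℝ) : ℂ) * Q2 := by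
    apply mul_left_cancel₀ hρC
    push_cast
    field_simp
    linear_combination q1
  have nH : ‖H1‖ = 1 / √2 := by
    refine sq_half eH2 ?_
    rw [eH0, zero_mul, zero_add] at ua
    exact ua
  have nK : ‖K2‖ = 1 / √2 := by
    refine sq_half eK0 ?_
    rw [eK1, zero_mul, add_zero, add_comm] at ub
    exact ub
  have nQ : ‖Q2‖ = 1 / √2 := by
    have h1 : ‖Q0‖ ^ 2 + ‖Q1‖ ^ 2 + ‖Q2‖ ^ 2 = 1 := by
      rw [Complex.mul_conj, Complex.mul_conj, Complex.mul_conj, Complex.normSq_eq_norm_sq,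
        Complex.normSq_eq_norm_sq, Complex.normSq_eq_norm_sq] at uq
      exact_mod_cast uq
    have h2 : ‖Q0‖ = β / ρ * ‖Q2‖ := by
      rw [eQ0, norm_neg, norm_mul, norm_mul, Complex.norm_I, one_mul, Complex.norm_real,
        Real.norm_of_nonneg (by positivity)]
    have h3 : ‖Q1‖ = α / ρ * ‖Q2‖ := by
      rw [eQ1, norm_mul, norm_mul, Complex.norm_I, one_mul, Complex.norm_real,
        Real.norm_of_nonneg (by positivity)]
    rw [h2, h3] at h1
    have h4 : (β / ρ) ^ 2 + (α / ρ) ^ 2 = 1 := by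
      rw [div_pow, div_pow, ← add_div, div_eq_one_iff_eq (by positivity), hρ2]
      ring
    have h5 : (√2 * ‖Q2‖) ^ 2 = 1 := by
      rw [mul_pow, Real.sq_sqrt (by norm_num)]
      linear_combination h1 - ‖Q2‖ ^ 2 * h4
    have h6 : √2 * ‖Q2‖ = 1 := by
      have h5 : 0 ≤ √2 * ‖Q2‖ := by positivity
      nlinarith
    rw [eq_div_iff (by positivity)]
    linarith
  have hc0 : conj Q0 = Complex.I * ((β / ρ : ℝ) : ℂ) * conj Q2 := by
    rw [eQ0, map_neg, map_mul, map_mul, Complex.conj_I, Complex.conj_ofReal]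
    ring
  have hc1 : conj Q1 = -(Complex.I * ((α / ρ : ℝ) : ℂ) * conj Q2) := by
    rw [eQ1, map_mul, map_mul, Complex.conj_I, Complex.conj_ofReal]
    ring
  have e : conj Q0 * (H1 * K2 - H2 * K1) + conj Q1 * (H2 * K0 - H0 * K2) +
      conj Q2 * (H0 * K1 - H1 * K0) =
      Complex.I * (H1 * K2 * conj Q2) * (((α + β) / ρ - 1 : ℝ) : ℂ) := by
    rw [hc0, hc1, eH0, eK1, eH2, eK0]
    have hI : Complex.I * Complex.I = -1 := Complex.I_mul_I
    push_cast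
    field_simp
    linear_combination (-(Complex.I * (α : ℂ) * H1 * K2 * conj Q2)) * hI
  rw [e, norm_mul, norm_mul, norm_mul, norm_mul, Complex.norm_I, one_mul, Complex.norm_conj, nH,
    nK, nQ, Complex.norm_real]
  have h7 : 0 ≤ (α + β) / ρ - 1 := by
    rw [sub_nonneg, le_div_iff₀ hρ, one_mul]
    nlinarith
  rw [Real.norm_of_nonneg h7]
  have h8 : (1 : ℝ) / √2 * (1 / √2) = 1 / 2 := by
    rw [div_mul_div_comm, one_mul, Real.mul_self_sqrt (by norm_num)]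
  rw [h8, div_mul_div_comm, one_mul]

theorem al_posR (n : ℕ) : 0 < αM n := by
  unfold αM
  exact_mod_cast al_pos n

theorem rho_pos (n : ℕ) : 0 < ρM n := by
  unfold ρM
  have := al_posR n
  have := al_posR (n + 1)
  exact Real.sqrt_pos.2 (by positivity)

theorem rho_sq (n : ℕ) : ρM n ^ 2 = αM n ^ 2 + αM (n + 1) ^ 2 := by
  unfold ρM
  exact Real.sq_sqrt (by positivity)

theorem kx_apply (n : ℕ) (j : Fin 3) : kx n j = if j.1 = n % 3 then (al n : ℤ) else 0 := rfl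

theorem nsq_kx (n : ℕ) : nsq (kx n) = (al n : ℤ) ^ 2 := by
  unfold nsq
  rw [Fin.sum_univ_three, kx_apply, kx_apply, kx_apply]
  have h : n % 3 = 0 ∨ n % 3 = 1 ∨ n % 3 = 2 := by omega
  rcases h with h | h | h <;> rw [h] <;> simp

theorem nsq_ky (n : ℕ) : nsq (kx n + kx (n + 1)) = (al n : ℤ) ^ 2 + (al (n + 1) : ℤ) ^ 2 := by
  unfold nsq
  rw [Fin.sum_univ_three]
  simp only [Pi.add_apply, kx_apply]
  have h : (n % 3 = 0 ∧ (n + 1) % 3 = 1) ∨ (n % 3 = 1 ∧ (n + 1) % 3 = 2) ∨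
    (n % 3 = 2 ∧ (n + 1) % 3 = 0) := by omega
  rcases h with ⟨h, h'⟩ | ⟨h, h'⟩ | ⟨h, h'⟩ <;> rw [h, h'] <;> simp [add_comm]

theorem len_kx (n : ℕ) : len (kx n) = αM n := by
  unfold len
  rw [nsq_kx]
  have : (((al n : ℤ) ^ 2 : ℤ) : ℝ) = αM n ^ 2 := by
    unfold αM
    push_cast
    rfl
  rw [this, Real.sqrt_sq (al_posR n).le]

theorem len_ky (n : ℕ) : len (kx n + kx (n + 1)) = ρM n := by
  unfold len ρM
  rw [nsq_ky]
  congr 1
  unfold αM
  push_cast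
  rfl

theorem part1 (h : Md → C3) (fr : Frame h) (n : ℕ) :
    ‖GM h n‖ = 2 * Real.pi * (1 / (2 * √2)) * ((αM n + αM (n + 1)) / ρM n - 1) := by
  have hα := al_posR n
  have hβ := al_posR (n + 1)
  have hρ := rho_pos n
  have hρ2 := rho_sq n
  obtain ⟨α, hαe⟩ : ∃ α, α = αM n := ⟨_, rfl⟩
  obtain ⟨β, hβe⟩ : ∃ β, β = αM (n + 1) := ⟨_, rfl⟩
  obtain ⟨ρ, hρe⟩ : ∃ ρ, ρ = ρM n := ⟨_, rfl⟩
  -- the three vectors
  have eH := fr.eig (Xm n)
  have eK := fr.eig (Xm (n + 1))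
  have eQ := fr.eig (Ym n)
  have uH := fr.unit (Xm n)
  have uK := fr.unit (Xm (n + 1))
  have uQ := fr.unit (Ym n)
  have l1 : hs (Xm n).2 * len (Xm n).1.1 = α := by
    show (1 : ℝ) * len (kx n) = α
    rw [one_mul, len_kx, hαe]
  have l2 : hs (Xm (n + 1)).2 * len (Xm (n + 1)).1.1 = β := by
    show (1 : ℝ) * len (kx (n + 1)) = β
    rw [one_mul, len_kx, hβe]
  have l3 : hs (Ym n).2 * len (Ym n).1.1 = -ρ := by
    show (-1 : ℝ) * len (kx n + kx (n + 1)) = -ρ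
    rw [len_ky, hρe]
    ring
  rw [l1] at eH
  rw [l2] at eK
  rw [l3] at eQ
  obtain ⟨H, hH⟩ : ∃ H, H = h (Xm n) := ⟨_, rfl⟩
  obtain ⟨K, hK⟩ : ∃ K, K = h (Xm (n + 1)) := ⟨_, rfl⟩
  obtain ⟨Q, hQ⟩ : ∃ Q, Q = h (Ym n) := ⟨_, rfl⟩
  have ekH : kc (Xm n).1.1 = fun j : Fin 3 => if j.1 = n % 3 then (α : ℂ) else 0 := by
    funext j
    show ((kx n j : ℤ) : ℂ) = _
    rw [kx_apply, hαe]
    unfold αM
    split_ifs <;> simp
  have ekK : kc (Xm (n + 1)).1.1 = fun j : Fin 3 => if j.1 = (n + 1) % 3 then (β : ℂ) else 0 := by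
    funext j
    show ((kx (n + 1) j : ℤ) : ℂ) = _
    rw [kx_apply, hβe]
    unfold αM
    split_ifs <;> simp
  have ekQ : kc (Ym n).1.1 = fun j : Fin 3 => (if j.1 = n % 3 then (α : ℂ) else 0) +
      if j.1 = (n + 1) % 3 then (β : ℂ) else 0 := by
    funext j
    show (((kx n + kx (n + 1)) j : ℤ) : ℂ) = _
    rw [Pi.add_apply, kx_apply, kx_apply, hαe, hβe]
    unfold αM
    split_ifs <;> simp
  have hG : GM h n = 2 * Real.pi * (conj (Q 0) * (H 1 * K 2 - H 2 * K 1) +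
      conj (Q 1) * (H 2 * K 0 - H 0 * K 2) + conj (Q 2) * (H 0 * K 1 - H 1 * K 0)) := by
    unfold GM dt
    rw [Fin.sum_univ_three, hH, hK, hQ]
    rfl
  have hfin : ‖conj (Q 0) * (H 1 * K 2 - H 2 * K 1) +
      conj (Q 1) * (H 2 * K 0 - H 0 * K 2) + conj (Q 2) * (H 0 * K 1 - H 1 * K 0)‖ =
      1 / (2 * √2) * ((α + β) / ρ - 1) := by
    rw [← hαe] at hα hρ2
    rw [← hβe] at hβ hρ2
    rw [← hρe] at hρ hρ2
    rw [ekH, ← hH] at eH
    rw [ekK, ← hK] at eK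
    rw [ekQ, ← hQ] at eQ
    rw [← hH] at uH
    rw [← hK] at uK
    rw [← hQ] at uQ
    unfold dt cj at uH uK uQ
    rw [Fin.sum_univ_three] at uH uK uQ
    have hcase : (n % 3 = 0 ∧ (n + 1) % 3 = 1) ∨ (n % 3 = 1 ∧ (n + 1) % 3 = 2) ∨
      (n % 3 = 2 ∧ (n + 1) % 3 = 0) := by omega
    have x0 := eH 0
    have x1 := eH 1
    have x2 := eH 2
    have y0 := eK 0
    have y1 := eK 1
    have y2 := eK 2
    have z0 := eQ 0
    have z1 := eQ 1
    have z2 := eQ 2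
    have c0 : ∀ a b : C3, cr a b 0 = a 1 * b 2 - a 2 * b 1 := fun _ _ => rfl
    have c1 : ∀ a b : C3, cr a b 1 = a 2 * b 0 - a 0 * b 2 := fun _ _ => rfl
    have c2 : ∀ a b : C3, cr a b 2 = a 0 * b 1 - a 1 * b 0 := fun _ _ => rfl
    rw [c0] at x0 y0 z0
    rw [c1] at x1 y1 z1
    rw [c2] at x2 y2 z2
    have f0 : ((0 : Fin 3) : ℕ) = 0 := rfl
    have f1 : ((1 : Fin 3) : ℕ) = 1 := rfl
    have f2 : ((2 : Fin 3) : ℕ) = 2 := rfl
    simp only [f0, f1, f2] at x0 x1 x2 y0 y1 y2 z0 z1 z2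
    have e01 : ((0 : ℕ) = 1) = False := by simp
    have e02 : ((0 : ℕ) = 2) = False := by simp
    have e10 : ((1 : ℕ) = 0) = False := by simp
    have e12 : ((1 : ℕ) = 2) = False := by simp
    have e20 : ((2 : ℕ) = 0) = False := by simp
    have e21 : ((2 : ℕ) = 1) = False := by simp
    rcases hcase with ⟨h1, h2⟩ | ⟨h1, h2⟩ | ⟨h1, h2⟩
    · rw [h1] at x0 x1 x2
      rw [h2] at y0 y1 y2
      rw [h1, h2] at z0 z1 z2
      simp only [if_true, if_false, e01, e02, e10, e12, e20, e21, Complex.ofReal_neg]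
        at x0 x1 x2 y0 y1 y2 z0 z1 z2
      exact core hα hβ hρ hρ2 (H0 := H 0) (H1 := H 1) (H2 := H 2) (K0 := K 0) (K1 := K 1)
        (K2 := K 2) (Q0 := Q 0) (Q1 := Q 1) (Q2 := Q 2) (by linear_combination -x0)
        (by linear_combination x2) (by linear_combination uH) (by linear_combination -y1)
        (by linear_combination y0) (by linear_combination uK) (by linear_combination z0)
        (by linear_combination z1) (by linear_combination uQ)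
    · rw [h1] at x0 x1 x2
      rw [h2] at y0 y1 y2
      rw [h1, h2] at z0 z1 z2
      simp only [if_true, if_false, e01, e02, e10, e12, e20, e21, Complex.ofReal_neg]
        at x0 x1 x2 y0 y1 y2 z0 z1 z2
      rw [← core hα hβ hρ hρ2 (H0 := H 1) (H1 := H 2) (H2 := H 0) (K0 := K 1) (K1 := K 2)
        (K2 := K 0) (Q0 := Q 1) (Q1 := Q 2) (Q2 := Q 0) (by linear_combination -x1)
        (by linear_combination x0) (by linear_combination uH) (by linear_combination -y2)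
        (by linear_combination y1) (by linear_combination uK) (by linear_combination z1)
        (by linear_combination z2) (by linear_combination uQ)]
      congr 1
      ring
    · rw [h1] at x0 x1 x2
      rw [h2] at y0 y1 y2
      rw [h1, h2] at z0 z1 z2
      simp only [if_true, if_false, e01, e02, e10, e12, e20, e21, Complex.ofReal_neg]
        at x0 x1 x2 y0 y1 y2 z0 z1 z2
      rw [← core hα hβ hρ hρ2 (H0 := H 2) (H1 := H 0) (H2 := H 1) (K0 := K 2) (K1 := K 0)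
        (K2 := K 1) (Q0 := Q 2) (Q1 := Q 0) (Q2 := Q 1) (by linear_combination -x2)
        (by linear_combination x1) (by linear_combination uH) (by linear_combination -y0)
        (by linear_combination y2) (by linear_combination uK) (by linear_combination z2)
        (by linear_combination z0) (by linear_combination uQ)]
      congr 1
      ring
  rw [hG, norm_mul, hfin, ← hαe, ← hβe, ← hρe]
  have e2 : ‖(2 * Real.pi : ℂ)‖ = 2 * Real.pi := by
    have : (2 * Real.pi : ℂ) = ((2 * Real.pi : ℝ) : ℂ) := by push_cast; rfl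
    rw [this, Complex.norm_real, Real.norm_of_nonneg (by positivity)]
  rw [e2]
  ring


/-! ### Bounds of the kernel -/

/-- square of the length of a vector -/
noncomputable def n2 (u : C3) : ℝ := ‖u 0‖ ^ 2 + ‖u 1‖ ^ 2 + ‖u 2‖ ^ 2

lemma dt3 (u v : C3) : dt u v = u 0 * v 0 + u 1 * v 1 + u 2 * v 2 := by
  unfold dt
  rw [Fin.sum_univ_three]

lemma n2_nonneg (u : C3) : 0 ≤ n2 u := by
  unfold n2
  positivity

lemma dt_sq (u v : C3) : ‖dt u v‖ ^ 2 ≤ n2 u * n2 v := by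
  have h : ‖dt u v‖ ≤ ‖u 0‖ * ‖v 0‖ + ‖u 1‖ * ‖v 1‖ + ‖u 2‖ * ‖v 2‖ := by
    rw [dt3]
    refine (norm_add_le _ _).trans ?_
    rw [norm_mul (u 2)]
    refine add_le_add ((norm_add_le _ _).trans ?_) le_rfl
    rw [norm_mul, norm_mul]
  have h2 : ‖dt u v‖ ^ 2 ≤ (‖u 0‖ * ‖v 0‖ + ‖u 1‖ * ‖v 1‖ + ‖u 2‖ * ‖v 2‖) ^ 2 :=
    pow_le_pow_left₀ (norm_nonneg _) h 2
  refine h2.trans ?_
  unfold n2
  nlinarith [sq_nonneg (‖u 0‖ * ‖v 1‖ - ‖u 1‖ * ‖v 0‖), sq_nonneg (‖u 0‖ * ‖v 2‖ - ‖u 2‖ * ‖v 0‖),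
    sq_nonneg (‖u 1‖ * ‖v 2‖ - ‖u 2‖ * ‖v 1‖)]

lemma dt_le {u v : C3} {p q : ℝ} (hp : 0 ≤ p) (hq : 0 ≤ q) (h1 : n2 u ≤ p ^ 2)
    (h2 : n2 v ≤ q ^ 2) : ‖dt u v‖ ≤ p * q := by
  have h3 : ‖dt u v‖ ^ 2 ≤ (p * q) ^ 2 := by
    rw [mul_pow]
    exact (dt_sq u v).trans (mul_le_mul h1 h2 (n2_nonneg v) (by positivity))
  exact (pow_le_pow_iff_left₀ (norm_nonneg _) (by positivity) two_ne_zero).1 h3

lemma nsq_c (x : ℂ) : ((‖x‖ ^ 2 : ℝ) : ℂ) = x * conj x := by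
  rw [Complex.mul_conj, Complex.normSq_eq_norm_sq]

lemma cr0 (a b : C3) : cr a b 0 = a 1 * b 2 - a 2 * b 1 := rfl
lemma cr1 (a b : C3) : cr a b 1 = a 2 * b 0 - a 0 * b 2 := rfl
lemma cr2 (a b : C3) : cr a b 2 = a 0 * b 1 - a 1 * b 0 := rfl
lemma cj_apply (a : C3) (j : Fin 3) : cj a j = conj (a j) := rfl

lemma lagr (u v : C3) : n2 (cr u v) + ‖dt u (cj v)‖ ^ 2 = n2 u * n2 v := by
  apply Complex.ofReal_injective
  unfold n2
  rw [dt3, cr0, cr1, cr2, cj_apply, cj_apply, cj_apply]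
  simp only [Complex.ofReal_add, Complex.ofReal_mul, nsq_c, map_add, map_sub, map_mul,
    Complex.conj_conj]
  ring

lemma n2_cr (u v : C3) : n2 (cr u v) ≤ n2 u * n2 v := by
  rw [← lagr]
  have : 0 ≤ ‖dt u (cj v)‖ ^ 2 := by positivity
  linarith

lemma n2_cj (u : C3) : n2 (cj u) = n2 u := by
  unfold n2
  rw [cj_apply, cj_apply, cj_apply, Complex.norm_conj, Complex.norm_conj, Complex.norm_conj]

lemma n2_h {h : Md → C3} (fr : Frame h) (i : Md) : n2 (h i) = 1 := by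
  have h1 := fr.unit i
  rw [dt3] at h1
  have h2 : ((n2 (h i) : ℝ) : ℂ) = 1 := by
    unfold n2
    rw [Complex.ofReal_add, Complex.ofReal_add, nsq_c, nsq_c, nsq_c]
    exact h1
  exact_mod_cast h2

lemma ln_nonneg (i : Md) : 0 ≤ ln i := Real.sqrt_nonneg _

lemma n2_kc (i : Md) : n2 (kc i.1.1) = ln i ^ 2 := by
  have h0 : ln i = √(nsq i.1.1 : ℝ) := rfl
  have h1 : (nsq i.1.1 : ℝ) = (i.1.1 0 : ℝ) ^ 2 + (i.1.1 1 : ℝ) ^ 2 + (i.1.1 2 : ℝ) ^ 2 := by
    unfold nsq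
    rw [Fin.sum_univ_three]
    push_cast
    rfl
  have h2 : ∀ j, ‖kc i.1.1 j‖ ^ 2 = (i.1.1 j : ℝ) ^ 2 := by
    intro j
    have : kc i.1.1 j = ((i.1.1 j : ℤ) : ℂ) := rfl
    rw [this, Complex.norm_intCast, sq_abs]
  rw [h0, Real.sq_sqrt (by rw [h1]; positivity), h1]
  unfold n2
  rw [h2, h2, h2]

lemma normK (h : Md → C3) (i a b : Md) (hab : a.1.1 + b.1.1 = i.1.1) :
    ‖cK h i a b‖ = 2 * Real.pi * ‖dt (h a) (kc b.1.1)‖ * ‖dt (h b) (cj (h i))‖ := by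
  unfold cK
  rw [if_pos hab, norm_mul, norm_mul, norm_neg]
  have e2 : ‖(2 * Real.pi * Complex.I : ℂ)‖ = 2 * Real.pi := by
    have : (2 * Real.pi * Complex.I : ℂ) = ((2 * Real.pi : ℝ) : ℂ) * Complex.I := by push_cast; rfl
    rw [this, norm_mul, Complex.norm_I, mul_one, Complex.norm_real,
      Real.norm_of_nonneg (by positivity)]
  rw [e2]

lemma cK_zero (h : Md → C3) (i a b : Md) (hab : ¬ a.1.1 + b.1.1 = i.1.1) : cK h i a b = 0 := by
  unfold cK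
  rw [if_neg hab]

lemma one_bd {h : Md → C3} (fr : Frame h) (a i : Md) : ‖dt (h a) (cj (h i))‖ ≤ 1 := by
  have h1 := dt_le (u := h a) (v := cj (h i)) (p := 1) (q := 1) zero_le_one zero_le_one
    (by rw [n2_h fr, one_pow]) (by rw [n2_cj, n2_h fr, one_pow])
  rwa [mul_one] at h1

lemma k_bd {h : Md → C3} (fr : Frame h) (a b : Md) : ‖dt (h a) (kc b.1.1)‖ ≤ ln b := by
  have h1 := dt_le (u := h a) (v := kc b.1.1) (p := 1) (q := ln b) zero_le_one (ln_nonneg b)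
    (by rw [n2_h fr, one_pow]) (by rw [n2_kc])
  rwa [one_mul] at h1

lemma k_eq {h : Md → C3} (fr : Frame h) (i a b : Md) (hab : a.1.1 + b.1.1 = i.1.1) :
    dt (h a) (kc b.1.1) = dt (h a) (kc i.1.1) := by
  have h1 := fr.perp a
  have h2 : ∀ j, kc i.1.1 j = kc a.1.1 j + kc b.1.1 j := by
    intro j
    have e1 : i.1.1 j = a.1.1 j + b.1.1 j := (congrFun hab j).symm
    have e2 : kc i.1.1 j = ((i.1.1 j : ℤ) : ℂ) := rfl
    have e3 : kc a.1.1 j = ((a.1.1 j : ℤ) : ℂ) := rfl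
    have e4 : kc b.1.1 j = ((b.1.1 j : ℤ) : ℂ) := rfl
    rw [e2, e3, e4, e1]
    push_cast
    rfl
  rw [dt3] at h1 ⊢
  rw [dt3, h2, h2, h2]
  linear_combination -h1

theorem part2 (h : Md → C3) (fr : Frame h) (i a b : Md) :
    ‖cK h i a b‖ ≤ 2 * Real.pi * ln i ∧ ‖cK h i a b‖ ≤ 2 * Real.pi * ln b := by
  have hpi : 0 ≤ 2 * Real.pi := by positivity
  by_cases hab : a.1.1 + b.1.1 = i.1.1
  · rw [normK h i a b hab]
    have h1 := one_bd fr b i
    constructor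
    · rw [k_eq fr i a b hab]
      have h2 := k_bd fr a i
      calc 2 * Real.pi * ‖dt (h a) (kc i.1.1)‖ * ‖dt (h b) (cj (h i))‖
          ≤ 2 * Real.pi * ‖dt (h a) (kc i.1.1)‖ * 1 := by gcongr
        _ ≤ 2 * Real.pi * ln i := by rw [mul_one]; gcongr
    · have h2 := k_bd fr a b
      calc 2 * Real.pi * ‖dt (h a) (kc b.1.1)‖ * ‖dt (h b) (cj (h i))‖
          ≤ 2 * Real.pi * ‖dt (h a) (kc b.1.1)‖ * 1 := by gcongr
        _ ≤ 2 * Real.pi * ln b := by rw [mul_one]; gcongr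
  · rw [cK_zero h i a b hab, norm_zero]
    exact ⟨mul_nonneg hpi (ln_nonneg i), mul_nonneg hpi (ln_nonneg b)⟩

lemma hs_sq (s : Bool) : |hs s| = 1 := by
  unfold hs
  cases s <;> simp

lemma hs_ne {s t : Bool} (h : s ≠ t) : hs s = -hs t := by
  unfold hs
  cases s <;> cases t <;> simp at h ⊢

/-- the identity for the product of two helical vectors -/
lemma ident {h : Md → C3} (fr : Frame h) (i a b : Md) (hab : b.1.1 + a.1.1 = i.1.1) :
    ((hs a.2 * ln a - hs i.2 * ln i : ℝ) : ℂ) * dt (h a) (cj (h i)) =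
      -(Complex.I * dt (cr (kc b.1.1) (h a)) (cj (h i))) := by
  have h2 : ∀ j, kc i.1.1 j = kc b.1.1 j + kc a.1.1 j := by
    intro j
    have e1 : i.1.1 j = b.1.1 j + a.1.1 j := (congrFun hab j).symm
    have e2 : kc i.1.1 j = ((i.1.1 j : ℤ) : ℂ) := rfl
    have e3 : kc a.1.1 j = ((a.1.1 j : ℤ) : ℂ) := rfl
    have e4 : kc b.1.1 j = ((b.1.1 j : ℤ) : ℂ) := rfl
    rw [e2, e3, e4, e1]
    push_cast
    rfl
  have hkc : ∀ j, conj (kc i.1.1 j) = kc i.1.1 j := by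
    intro j
    have e2 : kc i.1.1 j = ((i.1.1 j : ℤ) : ℂ) := rfl
    rw [e2, map_intCast]
  have eA := fr.eig a
  have eI := fr.eig i
  have ela : (hs a.2 * len a.1.1 : ℝ) = hs a.2 * ln a := rfl
  have eli : (hs i.2 * len i.1.1 : ℝ) = hs i.2 * ln i := rfl
  rw [ela] at eA
  rw [eli] at eI
  obtain ⟨A, hA⟩ : ∃ A, A = h a := ⟨_, rfl⟩
  obtain ⟨B, hB⟩ : ∃ B, B = h i := ⟨_, rfl⟩
  rw [← hA] at eA
  rw [← hB] at eI
  rw [← hA, ← hB]
  have a0 := eA 0
  have a1 := eA 1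
  have a2 := eA 2
  have b0 := congrArg conj (eI 0)
  have b1 := congrArg conj (eI 1)
  have b2 := congrArg conj (eI 2)
  rw [cr0] at a0 b0
  rw [cr1] at a1 b1
  rw [cr2] at a2 b2
  simp only [map_mul, map_sub, hkc, Complex.conj_I, Complex.conj_ofReal] at b0 b1 b2
  rw [h2 1, h2 2] at b0
  rw [h2 2, h2 0] at b1
  rw [h2 0, h2 1] at b2
  rw [dt3, dt3, cr0, cr1, cr2, cj_apply, cj_apply, cj_apply, Complex.ofReal_sub]
  linear_combination (-conj (B 0)) * a0 - conj (B 1) * a1 - conj (B 2) * a2 + A 0 * b0 + A 1 * b1 +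
    A 2 * b2

theorem part3 (h : Md → C3) (fr : Frame h) (i a b : Md) (hai : a.2 ≠ i.2)
    (hab : b.1.1 + a.1.1 = i.1.1) :
    ‖cK h i b a‖ * (ln a + ln i) ≤ 2 * Real.pi * ln a * ln b := by
  have h1 := ident fr i a b hab
  have h2 : hs a.2 * ln a - hs i.2 * ln i = hs a.2 * (ln a + ln i) := by
    rw [hs_ne hai]
    ring
  have hla := ln_nonneg a
  have hli := ln_nonneg i
  have hlb := ln_nonneg b
  have h3 : ‖dt (h a) (cj (h i))‖ * (ln a + ln i) ≤ ln b := by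
    have h4 := congrArg norm h1
    rw [norm_mul, h2, norm_neg, norm_mul, Complex.norm_I, one_mul, Complex.norm_real,
      Real.norm_eq_abs, abs_mul, hs_sq, one_mul, abs_of_nonneg (add_nonneg hla hli)] at h4
    rw [mul_comm, h4]
    have h5 := dt_le (u := cr (kc b.1.1) (h a)) (v := cj (h i)) (p := ln b) (q := 1) hlb
      zero_le_one (by
        refine (n2_cr _ _).trans ?_
        rw [n2_kc, n2_h fr, mul_one]) (by rw [n2_cj, n2_h fr, one_pow])
    rwa [mul_one] at h5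
  rw [normK h i b a hab]
  have h6 := k_bd fr b a
  calc 2 * Real.pi * ‖dt (h b) (kc a.1.1)‖ * ‖dt (h a) (cj (h i))‖ * (ln a + ln i)
      = 2 * Real.pi * ‖dt (h b) (kc a.1.1)‖ * (‖dt (h a) (cj (h i))‖ * (ln a + ln i)) := by ring
    _ ≤ 2 * Real.pi * ‖dt (h b) (kc a.1.1)‖ * ln b := by gcongr
    _ ≤ 2 * Real.pi * ln a * ln b := by gcongr

theorem t_VEC : S_VEC := by
  intro h fr
  exact ⟨part1 h fr, part2 h fr, part3 h fr⟩

end Pool.Agent.Y287.EF.VEC
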